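import Pool.Agent.Q98.Cut.Prim

/-!
# Recognising potentially partially positive words in free groups (MP_a41846_al)

For every rank `r` there is an algorithm which decides whether a word represents a potentially
partially positive element of the free group `F_r`.
-/

set_option autoImplicit false

namespace Pool.Agent.Results.MP_a41846_al.Decidable

/-- `w` is partially positive: some letter `a` of the basis occurs in the reduced word of `w`, and
`a⁻¹` does not occur in it. -/
def PartiallyPositive {r : ℕ} (w : FreeGroup (Fin r)) : Prop :=
  ∃ a : Fin r, (a, true) ∈ w.toWord ∧ (a, false) ∉ w.toWord

/-- `w` is potentially partially positive: some automorphism maps `w` to a partially positive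
element. -/
def PotentiallyPartiallyPositive {r : ℕ} (w : FreeGroup (Fin r)) : Prop :=
  ∃ φ : FreeGroup (Fin r) ≃* FreeGroup (Fin r), PartiallyPositive (φ w)

/-- For every rank `r` it is decidable whether a word in `x_1, …, x_r` and their inverses
represents a potentially partially positive element of `F_r`. -/
theorem result (r : ℕ) : ComputablePred (fun L : List (Fin r × Bool) =>
    PotentiallyPartiallyPositive (FreeGroup.mk L)) :=
  Pool.Agent.Q98.Cut.computable_pp3 r

end Pool.Agent.Results.MP_a41846_al.Decidable
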